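import Pool.Agent.Helper47.FS.Nil

/-!
# Everywhere locally trivial classes: subgroups of index `p`
-/

namespace Pool.Agent.Helper47.FS

open Pool.Agent.Helper58.FS

theorem act_ind {G : Type*} [Group G] [TopologicalSpace G] {T : Type*} [AddCommGroup T]
    {H : Subgroup G} {a : G → T →+ T} (ha : Act H a) {J : Type*}
    (π : G → J → J) (h1 : π 1 = id) (hm : ∀ g ∈ H, ∀ h ∈ H, π (g * h) = π g ∘ π h)
    (hc : ∃ U : Subgroup G, IsOpen (U : Set G) ∧ ∀ u ∈ U ⊓ H, π u = id) :
    Act H (indAct a π) where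
  one := by
    ext f j
    change a 1 (f (π 1⁻¹ j)) = f j
    rw [inv_one, h1, ha.one]
    rfl
  mul := fun g hg h hh => by
    ext f j
    change a (g * h) (f (π (g * h)⁻¹ j)) = a g (a h (f (π h⁻¹ (π g⁻¹ j))))
    rw [ha.mul g hg h hh, mul_inv_rev, hm _ (H.inv_mem hh) _ (H.inv_mem hg)]
    rfl
  cont := by
    obtain ⟨U, hU, h⟩ := ha.cont
    obtain ⟨V, hV, h'⟩ := hc
    refine ⟨U ⊓ V, hU.inter hV, fun u hu => ?_⟩
    ext f j
    change a u (f (π u⁻¹ j)) = f j
    rw [h u ⟨hu.1.1, hu.2⟩, h' u⁻¹ ⟨V.inv_mem hu.1.2, H.inv_mem hu.2⟩]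
    rfl

/-- The difference operator on functions on `ZMod p` is nilpotent in characteristic `p`. -/
theorem diff_nil {p : ℕ} [Fact p.Prime] {T : Type*} [AddCommGroup T] (hp : ∀ t : T, p • t = 0)
    (D : AddMonoid.End (ZMod p → T)) (hD : ∀ f j, D f j = f (j + 1) - f j) :
    D ^ p = 0 := by
  have hS : ∀ (k : ℕ) (f : ZMod p → T) (j : ZMod p), ((D + 1) ^ k) f j = f (j + k) := by
    intro k
    induction k with
    | zero =>
      intro f j
      rw [pow_zero]
      simp
    | succ k ih =>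
      intro f j
      rw [pow_succ]
      change ((D + 1) ^ k) ((D + 1) f) j = _
      rw [ih]
      change D f (j + k) + f (j + k) = _
      rw [hD, sub_add_cancel]
      push_cast
      rw [add_assoc]
  obtain ⟨r, hr⟩ := Commute.exists_add_pow_prime_eq (Fact.out : p.Prime) (Commute.one_right D)
  have hpr : ∀ x : AddMonoid.End (ZMod p → T), (p : AddMonoid.End (ZMod p → T)) * x = 0 := by
    intro x
    rw [← nsmul_eq_mul]
    ext f j
    change (p • (x f)) j = 0
    rw [Pi.smul_apply, hp]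
  rw [one_pow, mul_assoc, mul_assoc, hpr, add_zero] at hr
  have h1 : (D + 1) ^ p = 1 := by
    ext f j
    rw [hS p f j]
    simp
  rw [h1] at hr
  have h2 : D ^ p + 1 = 0 + 1 := by rw [← hr, zero_add]
  exact add_right_cancel h2

section pstep

variable {G : Type*} [Group G] [TopologicalSpace G] [IsTopologicalGroup G] [CompactSpace G]
  (X : Type*) [MulAction G X] {T : Type*} [AddCommGroup T]

/-- C2: a step of degree `p`. -/
theorem pstep {C : Subgroup G} {p : ℕ} [Fact p.Prime] (hA : ArithHyp X C p)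
    {H H' : Subgroup G} (hH : H ≤ C) (hV : ∃ V : Subgroup G, IsOpen (V : Set G) ∧ V ⊓ C ≤ H)
    {a : G → T →+ T} (ha : Act H a) [Finite T] (hp : ∀ t : T, p • t = 0)
    (θ : G → ZMod p) (hθ : ∀ g ∈ H, ∀ h ∈ H, θ (g * h) = θ g + θ h) (hs : ∃ g ∈ H, θ g = 1)
    (hc : ∃ U : Subgroup G, IsOpen (U : Set G) ∧ ∀ u ∈ U ⊓ H, θ u = 0)
    (hH' : ∀ g, g ∈ H' ↔ g ∈ H ∧ θ g = 0) (h : FinSh X a H) : FinSh X a H' := by
  have hθ1 : θ 1 = 0 := by
    have := hθ 1 H.one_mem 1 H.one_mem
    rw [mul_one] at this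
    exact left_eq_add.1 this
  let π : G → ZMod p → ZMod p := fun g j => j + θ g
  have h1 : π 1 = id := by
    funext j
    change j + θ 1 = j
    rw [hθ1, add_zero]
  have hm : ∀ g ∈ H, ∀ h ∈ H, π (g * h) = π g ∘ π h := by
    intro g hg h hh
    funext j
    change j + θ (g * h) = j + θ h + θ g
    rw [hθ g hg h hh]
    ring
  have hcπ : ∃ U : Subgroup G, IsOpen (U : Set G) ∧ ∀ u ∈ U ⊓ H, π u = id := by
    obtain ⟨U, hU, hu0⟩ := hc
    refine ⟨U, hU, fun u hu => ?_⟩
    funext j
    change j + θ u = j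
    rw [hu0 u hu, add_zero]
  have htr : ∀ j, ∃ h ∈ H, π h 0 = j := by
    obtain ⟨g, hg, hg1⟩ := hs
    have hk : ∀ k : ℕ, θ (g ^ k) = k := by
      intro k
      induction k with
      | zero => rw [pow_zero, hθ1, Nat.cast_zero]
      | succ k ih => rw [pow_succ, hθ _ (H.pow_mem hg k) g hg, ih, hg1, Nat.cast_succ]
    intro j
    refine ⟨g ^ j.val, H.pow_mem hg _, ?_⟩
    change 0 + θ (g ^ j.val) = j
    rw [hk, zero_add, ZMod.natCast_zmod_val]
  have hH'π : ∀ g, g ∈ H' ↔ g ∈ H ∧ π g 0 = 0 := by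
    intro g
    rw [hH' g]
    change _ ↔ g ∈ H ∧ 0 + θ g = 0
    rw [zero_add]
  refine Pool.Agent.Helper69.FS.sh2 X ha π h1 hm hcπ 0 htr hH'π ?_
  -- the difference operator
  let D : (ZMod p → T) →+ (ZMod p → T) :=
    { toFun := fun f j => f (j + 1) - f j
      map_zero' := by
        funext j
        simp
      map_add' := fun f f' => by
        funext j
        simp only [Pi.add_apply]
        abel }
  have hDv : ∀ f j, D f j = f (j + 1) - f j := fun f j => rfl
  let D' : AddMonoid.End (ZMod p → T) := D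
  have hnil : D' ^ p = 0 := diff_nil hp D' hDv
  have hmp : ∃ k : ℕ, ∀ m : ZMod p → T, p ^ k • m = 0 := by
    refine ⟨1, fun m => ?_⟩
    funext j
    rw [pow_one, Pi.smul_apply, hp]
    rfl
  let i : T →+ (ZMod p → T) := Pi.constAddMonoidHom (ZMod p) T
  have hiv : ∀ t j, i t j = t := fun t j => rfl
  refine nil X hA hH hV (act_ind ha π h1 hm hcπ) hmp D ?_ p ?_ i ?_ ?_ ?_ ha h
  · intro g _ f
    funext j
    rw [hDv]
    change a g (f (j + 1 + θ g⁻¹)) - a g (f (j + θ g⁻¹)) = a g (D f (j + θ g⁻¹))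
    rw [hDv, map_sub, add_right_comm]
  · intro f
    have h0 : (D' ^ p) f = 0 := by
      rw [hnil]
      rfl
    have h2 : ∀ k : ℕ, (D' ^ k) f = D^[k] f := by
      intro k
      induction k with
      | zero => rfl
      | succ k ih =>
        rw [pow_succ', Function.iterate_succ_apply', ← ih]
        rfl
    rw [← h2, h0]
  · intro s t hst
    exact congrFun hst 0
  · intro f
    constructor
    · intro hf
      have hk : ∀ k : ℕ, f k = f 0 := by
        intro k
        induction k with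
        | zero => rw [Nat.cast_zero]
        | succ k ih =>
          have := congrFun hf (k : ZMod p)
          rw [hDv, Pi.zero_apply, sub_eq_zero] at this
          rw [Nat.cast_succ, this, ih]
      refine ⟨f 0, ?_⟩
      funext j
      rw [hiv, ← hk j.val, ZMod.natCast_zmod_val]
    · rintro ⟨t, rfl⟩
      funext j
      rw [hDv, hiv, hiv, sub_self]
      rfl
  · intro g _ t
    funext j
    rfl

end pstep

end Pool.Agent.Helper47.FS
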