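import Mathlib

/-!
# Powers of an integer are dense in `1 + p ^ c ℤ_p`
-/

namespace Pool.Agent.Helper47.FS

theorem card_ker_unitsMap {p : ℕ} [Fact p.Prime] {c n : ℕ} (hc : 1 ≤ c) (hn : c ≤ n) :
    Nat.card (ZMod.unitsMap (pow_dvd_pow p hn)).ker = p ^ (n - c) := by
  have hp : p.Prime := Fact.out
  have h1 : Nat.card (ZMod (p ^ n))ˣ =
      Nat.card (ZMod (p ^ c))ˣ * Nat.card (ZMod.unitsMap (pow_dvd_pow p hn)).ker := by
    rw [Subgroup.card_eq_card_quotient_mul_card_subgroup (ZMod.unitsMap (pow_dvd_pow p hn)).ker]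
    congr 1
    exact Nat.card_congr (QuotientGroup.quotientKerEquivOfSurjective _
      (ZMod.unitsMap_surjective (pow_dvd_pow p hn))).toEquiv
  rw [Nat.card_eq_fintype_card, Nat.card_eq_fintype_card, ZMod.card_units_eq_totient,
    ZMod.card_units_eq_totient, Nat.totient_prime_pow hp (by omega),
    Nat.totient_prime_pow hp (by omega)] at h1
  have h2 : p ^ (n - 1) * (p - 1) = p ^ (c - 1) * (p - 1) * p ^ (n - c) := by
    rw [show n - 1 = (c - 1) + (n - c) by omega, pow_add]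
    ring
  rw [h2] at h1
  have h3 : 0 < p ^ (c - 1) * (p - 1) :=
    Nat.mul_pos (pow_pos hp.pos _) (by have := hp.two_le; omega)
  exact (Nat.eq_of_mul_eq_mul_left h3 h1).symm

/-- the powers of `u` fill the kernel of the reduction modulo `p ^ c` -/
theorem exists_pow_eq {p : ℕ} [Fact p.Prime] (hp : p ≠ 2) {c : ℕ} (hc : 1 ≤ c) {u : ℕ}
    (h1 : (p : ℤ) ^ c ∣ (u : ℤ) - 1) (h2 : ¬ (p : ℤ) ^ (c + 1) ∣ (u : ℤ) - 1) {n : ℕ}
    (hn : c ≤ n) (v : (ZMod (p ^ n))ˣ) (hv : ZMod.unitsMap (pow_dvd_pow p hn) v = 1) :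
    ∃ k : ℕ, (u : ZMod (p ^ n)) ^ k = v := by
  have hpp : p.Prime := Fact.out
  have hp1 : (p : ℤ) ∣ (u : ℤ) - 1 := (dvd_pow_self _ (by omega)).trans h1
  have hpu : ¬ (p : ℤ) ∣ (u : ℤ) := by
    intro h
    have h3 : (p : ℤ) ∣ 1 := by
      have := dvd_sub h hp1
      simpa using this
    have h4 := Int.le_of_dvd one_pos h3
    have := hpp.two_le
    omega
  have hcop : u.Coprime (p ^ n) := by
    apply Nat.Coprime.pow_right
    rw [Nat.coprime_comm, Nat.Prime.coprime_iff_not_dvd hpp]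
    intro h
    exact hpu (Int.natCast_dvd_natCast.2 h)
  set U : (ZMod (p ^ n))ˣ := ZMod.unitOfCoprime u hcop with hU
  have hUv : (U : ZMod (p ^ n)) = (u : ZMod (p ^ n)) := ZMod.coe_unitOfCoprime u hcop
  have hUk : U ∈ (ZMod.unitsMap (pow_dvd_pow p hn)).ker := by
    rw [MonoidHom.mem_ker]
    ext
    rw [ZMod.unitsMap_val, hUv, ZMod.cast_natCast (pow_dvd_pow p hn), Units.val_one]
    have h3 : ((u : ℤ) : ZMod (p ^ c)) = ((1 : ℤ) : ZMod (p ^ c)) := by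
      rw [ZMod.intCast_eq_intCast_iff_dvd_sub]
      have := h1.neg_right
      push_cast
      simpa using this
    simpa using h3
  have hord : orderOf U ∣ p ^ (n - c) := by
    rw [← card_ker_unitsMap hc hn]
    exact Subgroup.orderOf_dvd_natCard _ hUk
  obtain ⟨m, hm, hom⟩ := (Nat.dvd_prime_pow hpp).1 hord
  have hpow : (p : ℤ) ^ n ∣ (u : ℤ) ^ p ^ m - 1 ^ p ^ m := by
    have h3 : U ^ p ^ m = 1 := by
      rw [← hom]
      exact pow_orderOf_eq_one U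
    have h4 : ((u : ZMod (p ^ n))) ^ p ^ m = 1 := by
      rw [← hUv, ← Units.val_pow_eq_pow_val, h3, Units.val_one]
    rw [one_pow]
    have h5 : (((u : ℤ) ^ p ^ m - 1 : ℤ) : ZMod (p ^ n)) = 0 := by
      push_cast
      rw [h4, sub_self]
    rw [ZMod.intCast_zmod_eq_zero_iff_dvd] at h5
    exact_mod_cast h5
  have hlte := Int.emultiplicity_pow_sub_pow hpp (hpp.odd_of_ne_two hp) (x := (u : ℤ)) (y := 1)
    hp1 hpu (p ^ m)
  have hc' : emultiplicity (p : ℤ) ((u : ℤ) - 1) = c :=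
    emultiplicity_eq_coe.2 ⟨h1, h2⟩
  have hm' : emultiplicity p (p ^ m) = m := by
    rw [emultiplicity_pow_self (by
      have := hpp.pos
      omega) (Nat.prime_iff.1 hpp).not_isUnit]
  rw [hc', hm'] at hlte
  have hn' : (n : ℕ∞) ≤ emultiplicity (p : ℤ) ((u : ℤ) ^ p ^ m - 1 ^ p ^ m) :=
    le_emultiplicity_of_pow_dvd hpow
  rw [hlte] at hn'
  have hnm : n ≤ c + m := by exact_mod_cast hn'
  have hmm : m = n - c := by omega
  have hle : Subgroup.zpowers U ≤ (ZMod.unitsMap (pow_dvd_pow p hn)).ker := by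
    rw [Subgroup.zpowers_le]
    exact hUk
  have heq : Subgroup.zpowers U = (ZMod.unitsMap (pow_dvd_pow p hn)).ker := by
    apply Subgroup.eq_of_le_of_card_ge hle
    rw [card_ker_unitsMap hc hn, Nat.card_zpowers, hom, hmm]
  have hvz : v ∈ Subgroup.zpowers U := by
    rw [heq, MonoidHom.mem_ker]
    exact hv
  obtain ⟨k, hk⟩ := (mem_powers_iff_mem_zpowers.2 hvz)
  refine ⟨k, ?_⟩
  have h6 := congrArg (fun x : (ZMod (p ^ n))ˣ => (x : ZMod (p ^ n))) hk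
  simp only [Units.val_pow_eq_pow_val] at h6
  rw [← hUv]
  exact h6

/-- the exact power of `p` in `l ^ (p - 1) - 1` -/
theorem exists_exact {p : ℕ} [Fact p.Prime] {l : ℕ} (hl : 2 ≤ l) (hlp : ¬ p ∣ l) :
    ∃ c : ℕ, 1 ≤ c ∧ (p : ℤ) ^ c ∣ ((l ^ (p - 1) : ℕ) : ℤ) - 1 ∧
      ¬ (p : ℤ) ^ (c + 1) ∣ ((l ^ (p - 1) : ℕ) : ℤ) - 1 := by
  have hpp : p.Prime := Fact.out
  have h2 := hpp.two_le
  have hne : ((l ^ (p - 1) : ℕ) : ℤ) - 1 ≠ 0 := by
    have h3 : 1 < l ^ (p - 1) := Nat.one_lt_pow (by omega) (by omega)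
    omega
  have hfin : FiniteMultiplicity (p : ℤ) (((l ^ (p - 1) : ℕ) : ℤ) - 1) := by
    apply Int.finiteMultiplicity_iff.2
    refine ⟨?_, hne⟩
    simp only [Int.natAbs_natCast]
    omega
  refine ⟨multiplicity (p : ℤ) (((l ^ (p - 1) : ℕ) : ℤ) - 1), ?_, ?_, ?_⟩
  · have h3 : (p : ℤ) ∣ ((l ^ (p - 1) : ℕ) : ℤ) - 1 := by
      have h4 : (l : ZMod p) ≠ 0 := by
        rw [Ne, ZMod.natCast_eq_zero_iff]
        exact hlp
      have h5 := ZMod.pow_card_sub_one_eq_one h4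
      have h6 : ((((l ^ (p - 1) : ℕ) : ℤ) - 1 : ℤ) : ZMod p) = 0 := by
        push_cast
        rw [h5, sub_self]
      exact (ZMod.intCast_zmod_eq_zero_iff_dvd _ _).1 h6
    exact hfin.le_multiplicity_of_pow_dvd (by simpa using h3)
  · exact pow_multiplicity_dvd _ _
  · exact hfin.not_pow_dvd_of_multiplicity_lt (Nat.lt_succ_self _)

end Pool.Agent.Helper47.FS
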