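import Pool.Agent.Helper58.FS.Prm
import Pool.Agent.Helper47.FS.Num

/-!
# The primes above a prime number fall into finitely many orbits of `Cyc ⊓ U`
-/

set_option autoImplicit false

open scoped NumberField Pointwise

namespace Pool.Agent.Helper47.FS

open Pool.Agent.Helper58.FS

variable {Ω : Type*} [Field Ω] [CharZero Ω] [IsAlgClosed Ω] [Algebra.IsAlgebraic ℚ Ω]
  (p : ℕ) [Fact p.Prime]

/-- the cyclotomic character on the Galois group -/
noncomputable def chi : GQ Ω →* ℤ_[p]ˣ :=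
  (cyclotomicCharacter Ω p).comp (MulSemiringAction.toRingAut (GQ Ω) Ω)

/-- its power of exponent `p - 1` -/
noncomputable def psi : GQ Ω →* ℤ_[p]ˣ := (powMonoidHom (p - 1)).comp (chi p)

omit [IsAlgClosed Ω] [Algebra.IsAlgebraic ℚ Ω] in
theorem psi_apply (g : GQ Ω) : psi p g = chi p g ^ (p - 1) := rfl

omit [IsAlgClosed Ω] [Algebra.IsAlgebraic ℚ Ω] in
theorem mem_Cyc (g : GQ Ω) : g ∈ Cyc Ω p ↔ psi p g = 1 := Iff.rfl

omit [IsAlgClosed Ω] [Algebra.IsAlgebraic ℚ Ω] in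
theorem psi_continuous : Continuous (fun g : GQ Ω => ((psi p g : ℤ_[p]ˣ) : ℤ_[p])) := by
  have h1 : Continuous (chi p : GQ Ω → ℤ_[p]ˣ) := cyclotomicCharacter.continuous p ℚ Ω
  have h2 : Continuous (fun g : GQ Ω => ((chi p g : ℤ_[p]ˣ) : ℤ_[p]) ^ (p - 1)) :=
    (Units.continuous_val.comp h1).pow _
  exact h2

omit [Algebra.IsAlgebraic ℚ Ω] in
/-- the character on an element which acts like `g` resp. like a power -/
theorem chi_toZModPow (g : GQ Ω) (n : ℕ) (c : ZMod (p ^ n))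
    (hc : ∀ z : Ω, z ^ p ^ n = 1 → g z = z ^ c.val) :
    PadicInt.toZModPow n ((chi p g : ℤ_[p]ˣ) : ℤ_[p]) = c := by
  have h1 : PadicInt.toZModPow n ((chi p g : ℤ_[p]ˣ) : ℤ_[p]) = _ :=
    cyclotomicCharacter.toZModPow p (n := n) (MulSemiringAction.toRingAut (GQ Ω) Ω g)
  rw [h1]
  symm
  apply modularCyclotomicCharacter.unique
  intro t ht
  rw [mem_rootsOfUnity] at ht
  have h2 : ((t : Ωˣ) : Ω) ^ p ^ n = 1 := by
    rw [← Units.val_pow_eq_pow_val, ht, Units.val_one]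
  exact hc _ h2

omit [IsAlgClosed Ω] in
/-- the elements which send `x` into a given set form an open set -/
theorem isOpen_map_mem (x : Ω) (S : Set Ω) : IsOpen {g : GQ Ω | g x ∈ S} := by
  rw [isOpen_iff_mem_nhds]
  intro g hg
  have h1 : IsOpen ((MulAction.stabilizer (GQ Ω) x : Subgroup (GQ Ω)) : Set (GQ Ω)) :=
    stabilizer_isOpen_of_isIntegral (K := ℚ) x
  have h2 : IsOpen ((fun g' : GQ Ω => g⁻¹ * g') ⁻¹'
      ((MulAction.stabilizer (GQ Ω) x : Subgroup (GQ Ω)) : Set (GQ Ω))) :=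
    h1.preimage (continuous_const.mul continuous_id)
  refine Filter.mem_of_superset (h2.mem_nhds ?_) ?_
  · simp
  · intro g' hg'
    rw [Set.mem_preimage, SetLike.mem_coe, MulAction.mem_stabilizer_iff] at hg'
    have h3 : g' x = g x := by
      have h4 : g ((g⁻¹ * g') • x) = g x := by rw [hg']
      rw [mul_smul] at h4
      have h5 : g (g⁻¹ • (g' • x)) = g' • x := smul_inv_smul g (g' • x)
      rw [h5] at h4
      exact h4
    rw [Set.mem_ofPred_eq] at hg ⊢
    rw [h3]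
    exact hg

omit [IsAlgClosed Ω] in
/-- the stabilizer of a prime is closed -/
theorem isClosed_stab (P : Prm Ω) :
    IsClosed ((MulAction.stabilizer (GQ Ω) P : Subgroup (GQ Ω)) : Set (GQ Ω)) := by
  have key : ((MulAction.stabilizer (GQ Ω) P : Subgroup (GQ Ω)) : Set (GQ Ω)) =
      ⋂ x : 𝓞 Ω, ({g : GQ Ω | x ∈ P.1 → g • x ∈ P.1} ∩ {g : GQ Ω | x ∈ P.1 → g⁻¹ • x ∈ P.1}) := by
    ext g
    simp only [SetLike.mem_coe, MulAction.mem_stabilizer_iff, Set.mem_iInter, Set.mem_inter_iff,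
      Set.mem_ofPred_eq]
    constructor
    · intro h x
      have h1 : g • P.1 = P.1 := congrArg Subtype.val h
      have h2 : g⁻¹ • P.1 = P.1 := by
        rw [inv_smul_eq_iff, h1]
      constructor
      · intro hx
        rw [← h1]
        exact Ideal.smul_mem_pointwise_smul _ _ _ hx
      · intro hx
        rw [← h2]
        exact Ideal.smul_mem_pointwise_smul _ _ _ hx
    · intro h
      apply Subtype.ext
      show g • P.1 = P.1
      ext x
      constructor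
      · intro hx
        have h1 := (Ideal.mem_pointwise_smul_iff_inv_smul_mem).1 hx
        have h2 := (h (g⁻¹ • x)).1 h1
        rwa [smul_inv_smul] at h2
      · intro hx
        exact (Ideal.mem_pointwise_smul_iff_inv_smul_mem).2 ((h x).2 hx)
  rw [key]
  refine isClosed_iInter fun x => IsClosed.inter ?_ ?_
  · by_cases hx : x ∈ P.1
    · have h1 : {g : GQ Ω | x ∈ P.1 → g • x ∈ P.1} =
          {g : GQ Ω | g (x : Ω) ∈ {y : Ω | ∀ z : 𝓞 Ω, (z : Ω) = y → z ∉ P.1}}ᶜ := by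
        ext g
        simp only [Set.mem_compl_iff, Set.mem_ofPred_eq]
        constructor
        · intro h h'
          exact h' (g • x) rfl (h hx)
        · intro h _
          by_contra hcon
          apply h
          intro z hz
          have : z = g • x := by
            apply NumberField.RingOfIntegers.ext
            exact hz
          rw [this]
          exact hcon
      rw [h1]
      exact (isOpen_map_mem _ _).isClosed_compl
    · have h1 : {g : GQ Ω | x ∈ P.1 → g • x ∈ P.1} = Set.univ := by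
        ext g
        simp [hx]
      rw [h1]
      exact isClosed_univ
  · by_cases hx : x ∈ P.1
    · have h1 : {g : GQ Ω | x ∈ P.1 → g⁻¹ • x ∈ P.1} =
          (fun g : GQ Ω => g⁻¹) ⁻¹'
          ({g : GQ Ω | g (x : Ω) ∈ {y : Ω | ∀ z : 𝓞 Ω, (z : Ω) = y → z ∉ P.1}}ᶜ) := by
        ext g
        simp only [Set.mem_preimage, Set.mem_compl_iff, Set.mem_ofPred_eq]
        constructor
        · intro h h'
          exact h' (g⁻¹ • x) rfl (h hx)
        · intro h _
          by_contra hcon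
          apply h
          intro z hz
          have : z = g⁻¹ • x := by
            apply NumberField.RingOfIntegers.ext
            exact hz
          rw [this]
          exact hcon
      rw [h1]
      exact (isOpen_map_mem _ _).isClosed_compl.preimage continuous_inv
    · have h1 : {g : GQ Ω | x ∈ P.1 → g⁻¹ • x ∈ P.1} = Set.univ := by
        ext g
        simp [hx]
      rw [h1]
      exact isClosed_univ

/-- approximation of the character by elements of a closed subgroup -/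
theorem mem_sup (D : Subgroup (GQ Ω)) (hD : IsClosed (D : Set (GQ Ω))) (g : GQ Ω) (c : ℕ)
    (h : ∀ n, c ≤ n → ∃ d ∈ D, PadicInt.toZModPow n ((psi p d : ℤ_[p]ˣ) : ℤ_[p]) =
      PadicInt.toZModPow n ((psi p g : ℤ_[p]ˣ) : ℤ_[p])) : g ∈ Cyc Ω p ⊔ D := by
  have : IsAlgClosure ℚ Ω := ⟨inferInstance, inferInstance⟩
  have : IsGalois ℚ Ω := IsAlgClosure.isGalois ℚ Ω
  have hT : IsClosed ((fun g : GQ Ω => ((psi p g : ℤ_[p]ˣ) : ℤ_[p])) '' (D : Set (GQ Ω))) :=
    (hD.isCompact.image (psi_continuous p)).isClosed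
  have hmem : ((psi p g : ℤ_[p]ˣ) : ℤ_[p]) ∈
      (fun g : GQ Ω => ((psi p g : ℤ_[p]ˣ) : ℤ_[p])) '' (D : Set (GQ Ω)) := by
    rw [← hT.closure_eq, Metric.mem_closure_iff]
    intro ε hε
    obtain ⟨k, hk⟩ := PadicInt.exists_pow_neg_lt p hε
    obtain ⟨d, hd, hdg⟩ := h (max k c) (le_max_right _ _)
    refine ⟨_, ⟨d, hd, rfl⟩, ?_⟩
    rw [dist_eq_norm]
    have h1 : ((psi p g : ℤ_[p]ˣ) : ℤ_[p]) - ((psi p d : ℤ_[p]ˣ) : ℤ_[p]) ∈
        (Ideal.span {(p : ℤ_[p]) ^ (max k c)} : Ideal ℤ_[p]) := by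
      rw [← PadicInt.ker_toZModPow, RingHom.mem_ker, map_sub, hdg, sub_self]
    rw [← PadicInt.norm_le_pow_iff_mem_span_pow] at h1
    refine lt_of_le_of_lt h1 (lt_of_le_of_lt ?_ hk)
    apply zpow_le_zpow_right₀
    · exact_mod_cast (Fact.out : p.Prime).one_le
    · simp
  obtain ⟨d, hd, hdg⟩ := hmem
  have h1 : psi p d = psi p g := Units.ext hdg
  have h2 : g * d⁻¹ ∈ Cyc Ω p := by
    rw [mem_Cyc, map_mul, map_inv, h1, mul_inv_cancel]
  have h3 : g = (g * d⁻¹) * d := by group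
  rw [h3]
  exact Subgroup.mul_mem_sup h2 hd

/-- `Cyc` and a closed subgroup which contains an element that acts on the roots of unity of
`p`-power order like `z ↦ z ^ l` generate a subgroup of finite index. -/
theorem finiteIndex_sup (hp : p ≠ 2) (D : Subgroup (GQ Ω)) (hD : IsClosed (D : Set (GQ Ω)))
    (l : ℕ) (hl : l.Prime) (hlp : l ≠ p) (h : GQ Ω) (hh : h ∈ D)
    (hz : ∀ (n : ℕ) (z : Ω), z ^ p ^ n = 1 → h z = z ^ l) : (Cyc Ω p ⊔ D).FiniteIndex := by
  have hpp : p.Prime := Fact.out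
  obtain ⟨c, hc, hc1, hc2⟩ := exists_exact (p := p) hl.two_le
    (fun hd => hlp ((Nat.prime_dvd_prime_iff_eq hpp hl).1 hd).symm)
  have hchi : ∀ n, PadicInt.toZModPow n ((chi p h : ℤ_[p]ˣ) : ℤ_[p]) = (l : ZMod (p ^ n)) := by
    intro n
    apply chi_toZModPow
    intro z hzn
    rw [hz n z hzn, ZMod.val_natCast]
    exact pow_eq_pow_mod l hzn
  have hle : ((Units.map (PadicInt.toZModPow (p := p) c : ℤ_[p] →* ZMod (p ^ c))).comp
      (psi p : GQ Ω →* ℤ_[p]ˣ)).ker ≤ Cyc Ω p ⊔ D := by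
    intro g hg
    apply mem_sup p D hD g c
    intro n hn
    have hv : ZMod.unitsMap (pow_dvd_pow p hn)
        (Units.map (PadicInt.toZModPow (p := p) n : ℤ_[p] →* ZMod (p ^ n)) (psi p g)) = 1 := by
      rw [MonoidHom.mem_ker] at hg
      ext
      have h1 := congrArg (fun x : (ZMod (p ^ c))ˣ => (x : ZMod (p ^ c))) hg
      simp only [MonoidHom.comp_apply, Units.coe_map, Units.val_one] at h1
      rw [ZMod.unitsMap_val, Units.coe_map, Units.val_one]
      rw [← h1]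
      exact PadicInt.cast_toZModPow c n hn _
    obtain ⟨k, hk⟩ := exists_pow_eq hp hc hc1 hc2 hn _ hv
    refine ⟨h ^ k, D.pow_mem hh k, ?_⟩
    rw [Units.coe_map] at hk
    rw [map_pow, Units.val_pow_eq_pow_val, map_pow, psi_apply, Units.val_pow_eq_pow_val, map_pow,
      hchi, ← Nat.cast_pow]
    exact hk
  exact Subgroup.finiteIndex_of_le hle

/-- orbits: a transitive action, `C` and `K ≤ C` normal, `C ⊔ D` of finite index, `C ⊓ U` of finite
index in `C` -/
theorem finite_orbits {G X : Type*} [Group G] [MulAction G X] (C U : Subgroup G) [C.Normal]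
    [U.Normal] [U.FiniteIndex] (P : X) (hfin : (C ⊔ MulAction.stabilizer G P).FiniteIndex) :
    ∃ F : Set X, F.Finite ∧ ∀ g : G, ∃ Q ∈ F, ∃ h ∈ C ⊓ U, g • P = h • Q := by
  classical
  -- representatives modulo `C ⊔ D`
  let r : G ⧸ (C ⊔ MulAction.stabilizer G P) → G := Quotient.out
  -- representatives in `C` modulo `U`
  let s : G ⧸ U → G := fun q => if h : ∃ c ∈ C, (c : G ⧸ U) = q then h.choose else 1
  have hs : ∀ c ∈ C, ∃ k ∈ C ⊓ U, c = k * s (c : G ⧸ U) := by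
    intro c hc
    have h : ∃ c' ∈ C, ((c' : G) : G ⧸ U) = (c : G ⧸ U) := ⟨c, hc, rfl⟩
    have h1 : s (c : G ⧸ U) = h.choose := dif_pos h
    obtain ⟨h2, h3⟩ := h.choose_spec
    refine ⟨c * (s (c : G ⧸ U))⁻¹, ⟨?_, ?_⟩, by group⟩
    · rw [h1]
      exact C.mul_mem hc (C.inv_mem h2)
    · rw [h1]
      have h4 : c⁻¹ * h.choose ∈ U := QuotientGroup.eq.1 h3.symm
      have h8 : c * h.choose⁻¹ = c * (c⁻¹ * h.choose)⁻¹ * c⁻¹ := by group
      rw [h8]
      exact ‹U.Normal›.conj_mem _ (U.inv_mem h4) c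
  refine ⟨Set.range (fun q : (G ⧸ U) × (G ⧸ (C ⊔ MulAction.stabilizer G P)) =>
    s q.1 • (r q.2 • P)), Set.finite_range _, ?_⟩
  intro g
  have h1 : ((r (g : G ⧸ (C ⊔ MulAction.stabilizer G P)) : G) :
      G ⧸ (C ⊔ MulAction.stabilizer G P)) = (g : G ⧸ (C ⊔ MulAction.stabilizer G P)) :=
    QuotientGroup.out_eq' _
  set r0 : G := r (g : G ⧸ (C ⊔ MulAction.stabilizer G P)) with hr0
  have h2 : r0⁻¹ * g ∈ C ⊔ MulAction.stabilizer G P := QuotientGroup.eq.1 h1
  rw [Subgroup.mem_sup_of_normal_left] at h2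
  obtain ⟨c, hc, d, hd, hcd⟩ := h2
  have h3 : g = (r0 * c * r0⁻¹) * (r0 * d) := by
    rw [mul_assoc, inv_mul_cancel_left, mul_assoc, hcd, mul_inv_cancel_left]
  obtain ⟨k, hk, hk'⟩ := hs (r0 * c * r0⁻¹) (‹C.Normal›.conj_mem c hc r0)
  refine ⟨_, ⟨(((r0 * c * r0⁻¹ : G) : G ⧸ U), (g : G ⧸ (C ⊔ MulAction.stabilizer G P))), rfl⟩,
    k, hk, ?_⟩
  show g • P = k • (s ((r0 * c * r0⁻¹ : G) : G ⧸ U) • (r0 • P))
  rw [← mul_smul, ← hk', ← mul_smul]
  have h4 : g • P = (r0 * c * r0⁻¹ * (r0 * d)) • P := by rw [← h3]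
  rw [h4, mul_smul _ (r0 * d), mul_smul r0 d, MulAction.mem_stabilizer_iff.1 hd, mul_smul _ r0]

/-- AR3c: the primes above a prime number fall into finitely many orbits of `Cyc ⊓ U`. -/
theorem ar3c (hp : p ≠ 2)
    (ar3a : ∀ l : ℕ, l.Prime → l ≠ p → ∀ P : Prm Ω, (l : 𝓞 Ω) ∈ P.1 →
      ∃ h : GQ Ω, h • P = P ∧ ∀ (n : ℕ) (z : Ω), z ^ p ^ n = 1 → h z = z ^ l)
    (ar3b : ∀ P : Prm Ω, (p : 𝓞 Ω) ∈ P.1 → ∀ (g : GQ Ω) (n : ℕ),
      ∃ h : GQ Ω, h • P = P ∧ ∀ z : Ω, z ^ p ^ n = 1 → h z = g z)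
    (trans : ∀ l : ℕ, l.Prime → ∀ P Q : Prm Ω, (l : 𝓞 Ω) ∈ P.1 → (l : 𝓞 Ω) ∈ Q.1 →
      ∃ g : GQ Ω, g • P = Q)
    (l : ℕ) (hl : l.Prime) (U : Subgroup (GQ Ω)) (hN : U.Normal)
    (hU : IsOpen (U : Set (GQ Ω))) :
    ∃ F : Set (Prm Ω), F.Finite ∧ ∀ P : Prm Ω, (l : 𝓞 Ω) ∈ P.1 →
      ∃ Q ∈ F, ∃ h ∈ Cyc Ω p ⊓ U, P = h • Q := by
  by_cases hex : ∃ P : Prm Ω, (l : 𝓞 Ω) ∈ P.1
  swap
  · exact ⟨∅, Set.finite_empty, fun P hP => (hex ⟨P, hP⟩).elim⟩
  obtain ⟨P, hP⟩ := hex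
  have : IsAlgClosure ℚ Ω := ⟨inferInstance, inferInstance⟩
  have : IsGalois ℚ Ω := IsAlgClosure.isGalois ℚ Ω
  have hUf : U.FiniteIndex := by
    have := Subgroup.quotient_finite_of_isOpen U hU
    exact Subgroup.finiteIndex_of_finite_quotient
  have hC : (Cyc Ω p).Normal := MonoidHom.normal_ker _
  have hfin : (Cyc Ω p ⊔ MulAction.stabilizer (GQ Ω) P).FiniteIndex := by
    by_cases hlp : l = p
    · subst hlp
      have htop : Cyc Ω l ⊔ MulAction.stabilizer (GQ Ω) P = ⊤ := by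
        rw [eq_top_iff]
        intro g _
        apply mem_sup l _ (isClosed_stab P) g 0
        intro n _
        obtain ⟨h, hh, hz⟩ := ar3b P hP g n
        refine ⟨h, hh, ?_⟩
        have key : PadicInt.toZModPow n ((chi l h : ℤ_[l]ˣ) : ℤ_[l]) =
            PadicInt.toZModPow n ((chi l g : ℤ_[l]ˣ) : ℤ_[l]) := by
          apply chi_toZModPow
          intro z hzn
          rw [hz z hzn]
          exact cyclotomicCharacter.spec l (MulSemiringAction.toRingAut (GQ Ω) Ω g) z hzn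
        rw [psi_apply, psi_apply, Units.val_pow_eq_pow_val, Units.val_pow_eq_pow_val, map_pow,
          map_pow, key]
      rw [htop]
      infer_instance
    · obtain ⟨h, hh, hz⟩ := ar3a l hl hlp P hP
      exact finiteIndex_sup p hp _ (isClosed_stab P) l hl hlp h hh hz
  obtain ⟨F, hF, hF'⟩ := finite_orbits (Cyc Ω p) U P hfin
  refine ⟨F, hF, fun Q hQ => ?_⟩
  obtain ⟨g, rfl⟩ := trans l hl P Q hP hQ
  exact hF' g

end Pool.Agent.Helper47.FS
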