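import Mathlib

/-!
# `p`-primary groups with finite `p`-torsion
-/

namespace Pool.Agent.Helper47.FS

variable {R : Type*} [AddCommGroup R] {p : ℕ}

theorem finite_fiber (hf : {x : R | p • x = 0}.Finite) (y : R) : {x : R | p • x = y}.Finite := by
  by_cases hy : ∃ x0 : R, p • x0 = y
  · obtain ⟨x0, hx0⟩ := hy
    refine (hf.image (fun v => v + x0)).subset ?_
    intro x hx
    refine ⟨x - x0, ?_, sub_add_cancel x x0⟩
    change p • (x - x0) = 0
    have hx' : p • x = y := hx
    rw [smul_sub, hx', hx0, sub_self]
  · have : {x : R | p • x = y} = ∅ := by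
      ext x
      constructor
      · intro hx
        exact (hy ⟨x, hx⟩).elim
      · intro hx
        exact hx.elim
    rw [this]
    exact Set.finite_empty

theorem finite_pow (hf : {x : R | p • x = 0}.Finite) (n : ℕ) : {x : R | p ^ n • x = 0}.Finite := by
  induction n with
  | zero =>
    refine (Set.finite_singleton (0 : R)).subset ?_
    intro x hx
    have hx' : p ^ 0 • x = 0 := hx
    rw [pow_zero, one_smul] at hx'
    exact hx'
  | succ n ih =>
    refine (Set.Finite.preimage' (f := fun x : R => p • x) ih fun y _ => ?_).subset ?_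
    · exact finite_fiber hf y
    · intro x hx
      have hx' : p ^ (n + 1) • x = 0 := hx
      change p ^ n • (p • x) = 0
      rw [← mul_smul, ← pow_succ, hx']

/-- A finite abelian group: kernel and cokernel of an endomorphism have the same order. -/
theorem card_coker {B : Type*} [AddCommGroup B] [Finite B] (f : B →+ B) :
    Nat.card (B ⧸ f.range) = Nat.card f.ker := by
  have h1 := AddSubgroup.card_eq_card_quotient_mul_card_addSubgroup f.range
  have h2 := AddSubgroup.card_eq_card_quotient_mul_card_addSubgroup f.ker
  have h3 : Nat.card (B ⧸ f.ker) = Nat.card f.range :=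
    Nat.card_congr (QuotientAddGroup.quotientKerEquivRange f).toEquiv
  rw [h3, mul_comm] at h2
  have h4 : 0 < Nat.card f.range := Nat.card_pos
  exact Nat.eq_of_mul_eq_mul_right h4 (h1.symm.trans h2)

/-- A `p`-primary group with finite `p`-torsion is finite modulo `p`, and the quotient has at
most as many elements as the `p`-torsion. -/
theorem finite_mod (hR : ∀ x : R, ∃ n : ℕ, p ^ n • x = 0) (hf : {x : R | p • x = 0}.Finite) :
    Finite (R ⧸ (nsmulAddMonoidHom p : R →+ R).range) := by
  classical
  by_contra hinf
  have hI : Infinite (R ⧸ (nsmulAddMonoidHom p : R →+ R).range) := not_finite_iff_infinite.1 hinf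
  obtain ⟨s, hs⟩ := Infinite.exists_subset_card_eq (R ⧸ (nsmulAddMonoidHom p : R →+ R).range)
    (Nat.card {x : R | p • x = 0} + 1)
  choose n hn using hR
  let N : ℕ := s.sup (fun q => n q.out)
  have hN : ∀ q ∈ s, p ^ N • (q.out : R) = 0 := by
    intro q hq
    have hle : n q.out ≤ N := Finset.le_sup (f := fun q => n (Quotient.out q)) hq
    rw [← Nat.sub_add_cancel hle, pow_add, mul_smul, hn, smul_zero]
  let B : AddSubgroup R := (nsmulAddMonoidHom (p ^ N) : R →+ R).ker
  have hBf : Finite B := (finite_pow hf N).to_subtype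
  let f : B →+ B := nsmulAddMonoidHom p
  have hker : Nat.card f.ker ≤ Nat.card {x : R | p • x = 0} := by
    have : Finite {x : R | p • x = 0} := hf.to_subtype
    refine Nat.card_le_card_of_injective
      (fun x : f.ker => (⟨((x : B) : R), ?_⟩ : {x : R | p • x = 0})) ?_
    · have h1 : f (x : B) = 0 := x.2
      exact congrArg Subtype.val h1
    · intro x y hxy
      apply Subtype.ext
      apply Subtype.ext
      exact congrArg (fun z : {x : R | p • x = 0} => (z : R)) hxy
  have hle : s.card ≤ Nat.card (B ⧸ f.range) := by
    have h1 : Nat.card s = s.card := by rw [Nat.card_eq_fintype_card, Fintype.card_coe]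
    rw [← h1]
    let o : s → R := fun q => Quotient.out q.1
    have ho : ∀ q : s, (QuotientAddGroup.mk (o q) : R ⧸ (nsmulAddMonoidHom p : R →+ R).range) = q :=
      fun q => Quotient.out_eq' q.1
    have hoB : ∀ q : s, o q ∈ B := fun q => hN q.1 q.2
    refine Nat.card_le_card_of_injective
      (fun q : s => (QuotientAddGroup.mk (⟨o q, hoB q⟩ : B) : B ⧸ f.range)) ?_
    intro q q' hqq
    apply Subtype.ext
    obtain ⟨r, hr⟩ := QuotientAddGroup.eq.1 hqq
    have hr' : p • (r : R) = -(o q) + o q' := congrArg Subtype.val hr
    rw [← ho q, ← ho q']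
    exact QuotientAddGroup.eq.2 ⟨(r : R), hr'⟩
  rw [card_coker, hs] at hle
  omega

end Pool.Agent.Helper47.FS
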