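import Mathlib

/-!
# A cocycle of a finite group that vanishes on powers prime to `p` is a coboundary
-/

namespace Pool.Agent.Helper47.FS

section syl

variable {Γ : Type*} [Group Γ] [Finite Γ] {A : Type*} [AddCommGroup A]

theorem syl {p : ℕ} [hp' : Fact p.Prime] (hp : ∀ x : A, p • x = 0) (ρ : Γ → A →+ A)
    (ρ1 : ρ 1 = AddMonoidHom.id A) (c : Γ → A) (hc : ∀ g h, c (g * h) = c g + ρ g (c h))
    (h0 : ∀ g, ∃ e : ℕ, e.Coprime p ∧ c (g ^ e) = 0) :
    ∃ m : A, ∀ g, c g = ρ g m - m := by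
  classical
  have hc1 : c 1 = 0 := by
    have := hc 1 1
    rw [mul_one, ρ1] at this
    exact left_eq_add.1 this
  have hcp : ∀ x, c x = 0 → ∀ n : ℕ, c (x ^ n) = 0 := by
    intro x hx n
    induction n with
    | zero => rw [pow_zero, hc1]
    | succ n ih => rw [pow_succ, hc, ih, hx, map_zero, add_zero]
  -- elements of `p`-power order
  have hpp : ∀ g, (∃ k : ℕ, g ^ p ^ k = 1) → c g = 0 := by
    rintro g ⟨k, hk⟩
    obtain ⟨e, he, hce⟩ := h0 g
    have hco : (orderOf g).Coprime e := by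
      have h1 : orderOf g ∣ p ^ k := orderOf_dvd_of_pow_eq_one hk
      exact Nat.Coprime.coprime_dvd_left h1 (Nat.Coprime.pow_left k he.symm)
    have hfin : IsOfFinOrder g := isOfFinOrder_of_finite g
    obtain ⟨f, hf⟩ := exists_pow_eq_self_of_coprime hco.symm
    have := hcp _ hce f
    rwa [hf] at this
  let P : Sylow p Γ := default
  have hP : ∀ g ∈ (P : Subgroup Γ), c g = 0 := by
    intro g hg
    apply hpp
    obtain ⟨k, hk⟩ := P.isPGroup' ⟨g, hg⟩
    exact ⟨k, congrArg Subtype.val hk⟩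
  have hidx : ¬ p ∣ (P : Subgroup Γ).index := P.not_dvd_index
  -- the sum over the cosets
  have : Fintype (Γ ⧸ (P : Subgroup Γ)) := Fintype.ofFinite _
  let F : Γ ⧸ (P : Subgroup Γ) → A := fun q => c (Quotient.out q)
  have hF : ∀ g, c g = F (QuotientGroup.mk g) := by
    intro g
    obtain ⟨π, hπ⟩ := QuotientGroup.mk_out_eq_mul (P : Subgroup Γ) g
    change c g = c (Quotient.out (QuotientGroup.mk g : Γ ⧸ (P : Subgroup Γ)))
    rw [hπ, hc, hP π π.2, map_zero, add_zero]
  have hS : ∀ g, (P : Subgroup Γ).index • c g = (∑ q, F q) - ρ g (∑ q, F q) := by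
    intro g
    have h1 : ∑ q, F (g • q) = ∑ q, F q :=
      Equiv.sum_comp (MulAction.toPerm g : Equiv.Perm (Γ ⧸ (P : Subgroup Γ))) F
    have h2 : ∑ q, F (g • q) = (P : Subgroup Γ).index • c g + ρ g (∑ q, F q) := by
      rw [map_sum, Subgroup.index, Nat.card_eq_fintype_card, ← Finset.card_univ,
        ← Finset.sum_const, ← Finset.sum_add_distrib]
      refine Finset.sum_congr rfl fun q _ => ?_
      have h3 : g • q = QuotientGroup.mk (g * Quotient.out q) := by
        conv_lhs => rw [← Quotient.out_eq' q]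
        rfl
      rw [h3, ← hF, hc]
    rw [eq_sub_iff_add_eq, ← h2, h1]
  have hco : IsCoprime (((P : Subgroup Γ).index : ℕ) : ℤ) ((p : ℕ) : ℤ) := by
    rw [Nat.isCoprime_iff_coprime, Nat.coprime_comm]
    exact (Nat.Prime.coprime_iff_not_dvd hp'.out).2 hidx
  obtain ⟨u, v, huv⟩ := hco
  refine ⟨-(u • ∑ q, F q), fun g => ?_⟩
  have h1 : u • ((P : Subgroup Γ).index • c g) = c g := by
    calc u • ((P : Subgroup Γ).index • c g)
        = (u * (((P : Subgroup Γ).index : ℕ) : ℤ)) • c g := by rw [mul_smul, natCast_zsmul]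
      _ = (u * (((P : Subgroup Γ).index : ℕ) : ℤ)) • c g + (v * ((p : ℕ) : ℤ)) • c g := by
          rw [mul_smul v, natCast_zsmul, hp, smul_zero, add_zero]
      _ = c g := by rw [← add_smul, huv, one_smul]
  rw [← h1, hS g, map_neg, map_zsmul, smul_sub]
  abel

/-- The same for a subgroup `D` of a group `G` and a cocycle that is trivial on a normal subgroup
`U` of finite index which acts trivially. -/
theorem syl_of {G : Type*} [Group G] {p : ℕ} [Fact p.Prime] (hp : ∀ x : A, p • x = 0)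
    (U : Subgroup G) [U.Normal] [U.FiniteIndex] (D : Subgroup G) (b : G → A →+ A)
    (hb1 : b 1 = AddMonoidHom.id A) (hb : ∀ g ∈ D, ∀ h ∈ D, b (g * h) = (b g).comp (b h))
    (hbU : ∀ u ∈ D, u ∈ U → b u = AddMonoidHom.id A) (c : G → A)
    (hc : ∀ g ∈ D, ∀ h ∈ D, c (g * h) = c g + b g (c h))
    (hcU : ∀ g ∈ D, ∀ u ∈ D, u ∈ U → c (g * u) = c g)
    (h0 : ∀ g ∈ D, ∃ e : ℕ, e.Coprime p ∧ c (g ^ e) = 0) :
    ∃ m : A, ∀ g ∈ D, c g = b g m - m := by
  let N : Subgroup D := U.subgroupOf D
  have hNf : N.FiniteIndex := inferInstance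
  have hfin : Finite (D ⧸ N) := Subgroup.finite_quotient_of_finiteIndex
  have hrel : ∀ g : D, ∃ u : D, (u : G) ∈ U ∧
      (Quotient.out (QuotientGroup.mk g : D ⧸ N) : D) = g * u := by
    intro g
    obtain ⟨u, hu⟩ := QuotientGroup.mk_out_eq_mul N g
    exact ⟨u, u.2, hu⟩
  let ρ : D ⧸ N → A →+ A := fun q => b (Quotient.out q : D)
  let c' : D ⧸ N → A := fun q => c (Quotient.out q : D)
  have hρ : ∀ g : D, ρ (QuotientGroup.mk g) = b g := by
    intro g
    obtain ⟨u, huU, hu⟩ := hrel g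
    change b ((Quotient.out (QuotientGroup.mk g : D ⧸ N) : D) : G) = b g
    rw [hu]
    change b ((g : G) * u) = b g
    rw [hb g g.2 u u.2, hbU u u.2 huU]
    rfl
  have hc' : ∀ g : D, c' (QuotientGroup.mk g) = c g := by
    intro g
    obtain ⟨u, huU, hu⟩ := hrel g
    change c ((Quotient.out (QuotientGroup.mk g : D ⧸ N) : D) : G) = c g
    rw [hu]
    exact hcU g g.2 u u.2 huU
  obtain ⟨m, hm⟩ := syl (Γ := D ⧸ N) (p := p) hp ρ
    (by
      have := hρ 1
      rw [QuotientGroup.mk_one] at this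
      rw [this]
      exact hb1) c'
    (by
      intro x y
      induction x using QuotientGroup.induction_on with
      | H g =>
        induction y using QuotientGroup.induction_on with
        | H h =>
          rw [← QuotientGroup.mk_mul, hc', hc', hc', hρ]
          exact hc g g.2 h h.2)
    (by
      intro x
      induction x using QuotientGroup.induction_on with
      | H g =>
        obtain ⟨e, he, h1⟩ := h0 g g.2
        refine ⟨e, he, ?_⟩
        rw [← QuotientGroup.mk_pow, hc']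
        exact h1)
  refine ⟨m, fun g hg => ?_⟩
  have := hm (QuotientGroup.mk (⟨g, hg⟩ : D))
  rw [hc', hρ] at this
  exact this

end syl

end Pool.Agent.Helper47.FS
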