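import Pool.Agent.Helper58.FS.Inf
import Pool.Agent.Helper21.FS.A3
import Pool.Agent.Helper99.FS.A146
import Pool.Agent.Helper47.FS.PDiv
import Pool.Agent.Helper47.FS.Syl

/-!
# Locally trivial classes killed by `p` of a `p`-primary module
-/

namespace Pool.Agent.Helper47.FS

open Pool.Agent.Helper58.FS

section lk

variable {G : Type*} [Group G] [TopologicalSpace G]
  (X : Type*) [MulAction G X] {M A : Type*} [AddCommGroup M] [AddCommGroup A]

/-- Only the values on `H` matter. -/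
theorem zsh_congr {H : Subgroup G} {a : G → M →+ M} {c d : G → M} (hc : c ∈ Zsh X a H)
    (h : ∀ g ∈ H, d g = c g) : d ∈ Zsh X a H := by
  obtain ⟨h1, ⟨U, hU, h2⟩, h3⟩ := hc
  refine ⟨fun g hg k hk => ?_, ⟨U, hU, fun g hg u hu => ?_⟩, fun x => ?_⟩
  · rw [h _ (H.mul_mem hg hk), h g hg, h k hk]
    exact h1 g hg k hk
  · rw [h _ (H.mul_mem hg hu.2), h g hg]
    exact h2 g hg u hu
  · obtain ⟨m, hm⟩ := h3 x
    exact ⟨m, fun g hg hgx => by rw [h g hg, hm g hg hgx]⟩

theorem bsh_le {H : Subgroup G} {a : G → M →+ M} (ha : ActP H a) : Bsh a H ≤ Zsh X a H := by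
  rintro c ⟨m, hm⟩
  refine ⟨fun g hg k hk => ?_, ?_, fun x => ⟨m, fun g hg _ => hm g hg⟩⟩
  · rw [hm _ (H.mul_mem hg hk), hm g hg, hm k hk, ha.mul g hg k hk, map_sub]
    change a g (a k m) - m = _
    abel
  · obtain ⟨U, hU, hu0⟩ := ha.cont m
    refine ⟨U, hU, fun g hg u hu => ?_⟩
    rw [hm _ (H.mul_mem hg hu.2), hm g hg, ha.mul g hg u hu.2]
    change a g (a u m) - m = _
    rw [hu0 u hu]

/-- The elements fixed by the stabilizer of `x` in `H`. -/
def fixR {H : Subgroup G} {a : G → M →+ M} (x : X) : AddSubgroup M where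
  carrier := {m | ∀ g ∈ H, g • x = x → a g m = m}
  zero_mem' := fun g _ _ => map_zero _
  add_mem' := by
    intro m n hm hn g hg hgx
    rw [map_add, hm g hg hgx, hn g hg hgx]
  neg_mem' := by
    intro m hm g hg hgx
    rw [map_neg, hm g hg hgx]

variable [IsTopologicalGroup G] [CompactSpace G]

/-- The local conditions are satisfied on a subgroup of finite index. -/
theorem lk_loc {H : Subgroup G} {a : G → M →+ M} {p : ℕ} [Fact p.Prime]
    (hM : ∀ m : M, ∃ n : ℕ, p ^ n • m = 0) [Finite A] (i : A →+ M) (hi : Function.Injective i)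
    (hr : ∀ m, p • m = 0 ↔ ∃ x, i x = m) {b : G → A →+ A} (hb : Act H b)
    (he : ∀ g ∈ H, ∀ x, i (b g x) = a g (i x)) (hA : ArithInf X H a p) :
    (Zsh X b H).relIndex ((Zsh X a H).comap (i.compLeft G)) ≠ 0 := by
  classical
  have hpA : ∀ x : A, p • x = 0 := by
    intro x
    apply hi
    rw [map_nsmul, map_zero]
    exact (hr _).2 ⟨x, rfl⟩
  have hpM : {m : M | p • m = 0}.Finite := by
    refine (Set.finite_range i).subset ?_
    intro m hm
    exact (hr m).1 hm
  obtain ⟨F, hF, hFX⟩ := hA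
  -- the fixed modules
  let R : X → AddSubgroup M := fun x => fixR X (H := H) (a := a) x
  have hRfin : ∀ x, Finite (R x ⧸ (nsmulAddMonoidHom p : R x →+ R x).range) := by
    intro x
    apply finite_mod
    · intro r
      obtain ⟨n, hn⟩ := hM r
      exact ⟨n, Subtype.ext hn⟩
    · refine Set.Finite.of_finite_image (f := fun r : R x => (r : M)) (hpM.subset ?_)
        (fun r _ s _ hrs => Subtype.ext hrs)
      rintro _ ⟨r, hr0, rfl⟩
      exact congrArg Subtype.val hr0
  have hbc : ∀ c ∈ (Zsh X a H).comap (i.compLeft G), ∀ g ∈ H, ∀ h ∈ H,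
      c (g * h) = c g + b g (c h) := by
    intro c hc g hg h hh
    apply hi
    rw [map_add, he g hg]
    exact hc.1 g hg h hh
  have hloc : ∀ c : ((Zsh X a H).comap (i.compLeft G) : AddSubgroup (G → A)), ∀ x : X,
      ∃ n : M, ∀ g ∈ H, g • x = x → i ((c : G → A) g) = a g n - n := fun c x => c.2.2.2 x
  choose n hn using hloc
  have hpn : ∀ c x, p • n c x ∈ R x := by
    intro c x g hg hgx
    have h1 := hn c x g hg hgx
    have h2 : p • i ((c : G → A) g) = 0 := (hr _).2 ⟨_, rfl⟩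
    rw [h1, smul_sub, sub_eq_zero] at h2
    rw [map_nsmul, h2]
  have hfF : Finite F := hF
  let f : ((Zsh X a H).comap (i.compLeft G) : AddSubgroup (G → A)) →
      ∀ y : F, R y.1 ⧸ (nsmulAddMonoidHom p : R y.1 →+ R y.1).range :=
    fun c y => QuotientAddGroup.mk ⟨p • n c y.1, hpn c y.1⟩
  refine Pool.Agent.Helper99.FS.fin_of_map f fun c d hcd => ?_
  have hsub : (c : G → A) - d ∈ (Zsh X a H).comap (i.compLeft G) :=
    AddSubgroup.sub_mem _ c.2 d.2
  have hcont : ∃ U : Subgroup G, IsOpen (U : Set G) ∧ ∀ g ∈ H, ∀ u ∈ U ⊓ H,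
      ((c : G → A) - d) (g * u) = ((c : G → A) - d) g := by
    obtain ⟨U, hU, h2⟩ := hsub.2.1
    exact ⟨U, hU, fun g hg u hu => hi (h2 g hg u hu)⟩
  have hbad : ∀ y ∈ F, ∃ m : A, ∀ g ∈ H, g • y = y → ((c : G → A) - d) g = b g m - m := by
    intro y hy
    obtain ⟨r, hr1⟩ := QuotientAddGroup.eq.1 (congrFun hcd ⟨y, hy⟩)
    have hr2 : p • (r : M) = -(p • n c y) + p • n d y := congrArg Subtype.val hr1
    have hr3 : p • (n c y - n d y + r) = 0 := by
      rw [smul_add, smul_sub, hr2]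
      abel
    obtain ⟨α, hα⟩ := (hr _).1 hr3
    refine ⟨α, fun g hg hgy => ?_⟩
    apply hi
    have hrg : a g (r : M) = r := r.2 g hg hgy
    rw [map_sub i, he g hg, hα, map_add, map_sub, hrg, Pi.sub_apply, map_sub, hn c y g hg hgy,
      hn d y g hg hgy]
    abel
  refine ⟨hbc _ hsub, hcont, fun x => ?_⟩
  rcases hFX x with ⟨y, hy, h, hh, rfl⟩ | hx
  · obtain ⟨m, hm⟩ := hbad y hy
    exact ⟨_, Pool.Agent.Helper21.FS.local_smul hb.mul (hbc _ hsub) hh hm⟩
  · obtain ⟨U1, hU1, h1⟩ := hcont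
    obtain ⟨U2, hU2, h2⟩ := hb.cont
    obtain ⟨U, hUn, hUo, hUle⟩ := Pool.Agent.Helper21.FS.exists_open_normal
      (U := U1 ⊓ U2) (hU1.inter hU2)
    have hfq : Finite (G ⧸ U) := Subgroup.quotient_finite_of_isOpen _ hUo
    have hfi : U.FiniteIndex := Subgroup.finiteIndex_of_finite_quotient
    obtain ⟨m, hm⟩ := syl_of (p := p) hpA U (H ⊓ MulAction.stabilizer G x) b hb.one
      (fun g hg h hh => hb.mul g hg.1 h hh.1)
      (fun u hu huU => h2 u ⟨(hUle huU).2, hu.1⟩) ((c : G → A) - d)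
      (fun g hg h hh => hbc _ hsub g hg.1 h hh.1)
      (fun g hg u hu huU => h1 g hg.1 u ⟨(hUle huU).1, hu.1⟩)
      (by
        intro g hg
        obtain ⟨e, hep, ι, hιH, hιx, hιM, hιU⟩ := hx U hUn hUo g hg.1 hg.2
        refine ⟨e, hep, ?_⟩
        have hι0 : ((c : G → A) - d) ι = 0 := by
          apply hi
          rw [Pi.sub_apply, map_sub, hn c x ι hιH hιx, hn d x ι hιH hιx, hιM, hιM, map_zero,
            sub_self, sub_self, sub_self]
        have hv : ι⁻¹ * (g ^ e * ι⁻¹) * ι ∈ U := by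
          have := hUn.conj_mem _ hιU ι⁻¹
          rwa [inv_inv] at this
        have hvH : ι⁻¹ * (g ^ e * ι⁻¹) * ι ∈ H :=
          H.mul_mem (H.mul_mem (H.inv_mem hιH) (H.mul_mem (H.pow_mem hg.1 e) (H.inv_mem hιH))) hιH
        have hge : g ^ e = ι * (ι⁻¹ * (g ^ e * ι⁻¹) * ι) := by group
        rw [hge, h1 ι hιH _ ⟨(hUle hv).1, hvH⟩, hι0])
    exact ⟨m, fun g hg hgx => hm g ⟨hg, hgx⟩⟩

/-- D4b. -/
theorem lk2 {H : Subgroup G} {a : G → M →+ M} (ha : ActP H a) {p : ℕ} [Fact p.Prime]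
    (hM : ∀ m : M, ∃ n : ℕ, p ^ n • m = 0) [Finite A] (i : A →+ M) (hi : Function.Injective i)
    (hr : ∀ m, p • m = 0 ↔ ∃ x, i x = m) {b : G → A →+ A} (hb : Act H b)
    (he : ∀ g ∈ H, ∀ x, i (b g x) = a g (i x)) (hA : ArithInf X H a p) (h : FinSh X b H) :
    FinShp X a H p := by
  classical
  have hpM : {m : M | p • m = 0}.Finite := by
    refine (Set.finite_range i).subset ?_
    intro m hm
    exact (hr m).1 hm
  have hMfin : Finite (M ⧸ (nsmulAddMonoidHom p : M →+ M).range) := finite_mod hM hpM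
  -- the classes with values in `A`
  have h4 : (Bsh b H).relIndex ((Zsh X a H).comap (i.compLeft G)) ≠ 0 :=
    AddSubgroup.relIndex_ne_zero_trans h (lk_loc X hM i hi hr hb he hA)
  -- the functions killed by `p`
  let Kp : AddSubgroup (G → M) :=
    { carrier := {c | ∀ g ∈ H, p • c g = 0}
      zero_mem' := fun g _ => smul_zero _
      add_mem' := by
        intro c d hc hd g hg
        rw [Pi.add_apply, smul_add, hc g hg, hd g hg, add_zero]
      neg_mem' := by
        intro c hc g hg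
        rw [Pi.neg_apply, smul_neg, hc g hg, neg_zero] }
  let Zp : AddSubgroup (G → M) := Zsh X a H ⊓ (Bsh a H).comap (nsmulAddMonoidHom p)
  have s1 : (Bsh a H ⊔ Kp).relIndex Zp ≠ 0 := by
    have hch : ∀ c : Zp, ∃ m : M, ∀ g ∈ H, p • (c : G → M) g = a g m - m := fun c => c.2.2
    choose m hm using hch
    refine Pool.Agent.Helper99.FS.fin_of_map
      (fun c : Zp => (QuotientAddGroup.mk (m c) : M ⧸ (nsmulAddMonoidHom p : M →+ M).range))
      fun c d hcd => ?_
    obtain ⟨r, hr1⟩ := QuotientAddGroup.eq.1 hcd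
    have hr2 : p • r = -(m c) + m d := hr1
    refine AddSubgroup.mem_sup.2 ⟨fun g => a g (-r) - (-r), ⟨-r, fun g _ => rfl⟩,
      (c : G → M) - d - fun g => a g (-r) - (-r), ?_, add_sub_cancel _ _⟩
    intro g hg
    have e1 : p • ((c : G → M) g - (d : G → M) g - (a g (-r) - (-r))) =
        (a g (m c) - m c) - (a g (m d) - m d) + (a g (p • r) - p • r) := by
      rw [smul_sub, smul_sub, hm c g hg, hm d g hg, map_neg, map_nsmul, smul_sub, smul_neg,
        smul_neg]
      abel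
    change p • ((c : G → M) g - (d : G → M) g - (a g (-r) - (-r))) = 0
    rw [e1, hr2, map_add, map_neg]
    abel
  have s2 : (Bsh a H).relIndex ((Bsh a H ⊔ Kp) ⊓ Zp) ≠ 0 := by
    have hfi : ((Bsh b H).addSubgroupOf ((Zsh X a H).comap (i.compLeft G))).FiniteIndex := ⟨h4⟩
    have hfin : Finite (((Zsh X a H).comap (i.compLeft G) : AddSubgroup (G → A)) ⧸
        (Bsh b H).addSubgroupOf ((Zsh X a H).comap (i.compLeft G))) :=
      AddSubgroup.finite_quotient_of_finiteIndex
    have hch : ∀ c : ((Bsh a H ⊔ Kp) ⊓ Zp : AddSubgroup (G → M)),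
        ∃ c' : ((Zsh X a H).comap (i.compLeft G) : AddSubgroup (G → A)), ∃ m : M,
          ∀ g ∈ H, (c : G → M) g = i ((c' : G → A) g) + (a g m - m) := by
      intro c
      obtain ⟨β, hβ, κ, hκ, hβκ⟩ := AddSubgroup.mem_sup.1 c.2.1
      have hκe : κ = (c : G → M) - β := by rw [← hβκ, add_sub_cancel_left]
      have hκZ : κ ∈ Zsh X a H := by
        rw [hκe]
        exact AddSubgroup.sub_mem _ c.2.2.1 (bsh_le X ha hβ)
      have hex : ∀ g : G, ∃ x : A, g ∈ H → i x = κ g := by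
        intro g
        by_cases hg : g ∈ H
        · obtain ⟨x, hx⟩ := (hr _).1 (hκ g hg)
          exact ⟨x, fun _ => hx⟩
        · exact ⟨0, fun h => (hg h).elim⟩
      choose c' hc' using hex
      obtain ⟨m, hm⟩ := hβ
      refine ⟨⟨c', zsh_congr X hκZ fun g hg => hc' g hg⟩, m, fun g hg => ?_⟩
      change _ = i (c' g) + _
      rw [hc' g hg, ← hm g hg, hκe, Pi.sub_apply, sub_add_cancel]
    choose c' m hm using hch
    refine Pool.Agent.Helper99.FS.fin_of_map
      (fun c => (QuotientAddGroup.mk (c' c) :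
        ((Zsh X a H).comap (i.compLeft G) : AddSubgroup (G → A)) ⧸
        (Bsh b H).addSubgroupOf ((Zsh X a H).comap (i.compLeft G)))) fun c d hcd => ?_
    obtain ⟨α, hα⟩ := AddSubgroup.mem_addSubgroupOf.1 (QuotientAddGroup.eq.1 hcd)
    refine ⟨-(i α) + (m c - m d), fun g hg => ?_⟩
    have h1 : -((c' c : G → A) g) + (c' d : G → A) g = b g α - α := hα g hg
    have h2 : i ((c' d : G → A) g) - i ((c' c : G → A) g) = a g (i α) - i α := by
      rw [← he g hg, ← map_sub, ← map_sub, ← h1, neg_add_eq_sub]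
    rw [Pi.sub_apply, hm c g hg, hm d g hg, map_add, map_neg, map_sub]
    have h3 : i ((c' d : G → A) g) = i ((c' c : G → A) g) + (a g (i α) - i α) := by
      rw [← h2, add_sub_cancel]
    rw [h3]
    abel
  refine AddSubgroup.relIndex_ne_zero_trans s2 ?_
  rw [AddSubgroup.inf_relIndex_right]
  exact s1

end lk

end Pool.Agent.Helper47.FS
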