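import Pool.Agent.Helper21.FS.A3
import Pool.Agent.Helper99.FS.A146
import Pool.Agent.Helper69.FS.Sh

/-!
# Everywhere locally trivial classes: a nilpotent endomorphism, and subgroups of index `p`
-/

namespace Pool.Agent.Helper47.FS

open Pool.Agent.Helper58.FS

section sub

variable {G : Type*} [Group G] [TopologicalSpace G] {M : Type*} [AddCommGroup M]

open scoped Classical in
/-- The action on a stable subgroup, the identity where the subgroup is not stable. -/
noncomputable def sAct (a : G → M →+ M) (K : AddSubgroup M) (g : G) : K →+ K :=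
  if h : ∀ x ∈ K, a g x ∈ K then
    ((a g).comp K.subtype).codRestrict K (fun x => h x x.2) else AddMonoidHom.id K

theorem coe_sAct {a : G → M →+ M} {K : AddSubgroup M} {g : G} (h : ∀ x ∈ K, a g x ∈ K) (x : K) :
    ((sAct a K g x : K) : M) = a g x := by
  unfold sAct
  rw [dif_pos h]
  rfl

theorem act_sAct {H : Subgroup G} {a : G → M →+ M} (ha : Act H a) {K : AddSubgroup M}
    (hK : ∀ g ∈ H, ∀ x ∈ K, a g x ∈ K) : Act H (sAct a K) where
  one := by
    ext x
    rw [coe_sAct (hK 1 H.one_mem), ha.one]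
    rfl
  mul := fun g hg h hh => by
    ext x
    rw [coe_sAct (hK _ (H.mul_mem hg hh)), ha.mul g hg h hh]
    change _ = ((sAct a K g (sAct a K h x) : K) : M)
    rw [coe_sAct (hK g hg), coe_sAct (hK h hh)]
    rfl
  cont := by
    obtain ⟨U, hU, h⟩ := ha.cont
    refine ⟨U, hU, fun u hu => ?_⟩
    ext x
    rw [coe_sAct (hK u hu.2), h u hu]
    rfl

end sub

section nil

variable {G : Type*} [Group G] [TopologicalSpace G] [IsTopologicalGroup G] [CompactSpace G]
  (X : Type*) [MulAction G X] {M N T : Type*} [AddCommGroup M] [AddCommGroup N] [AddCommGroup T]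

theorem fin_of_le {H : Subgroup G} {a : G → M →+ M} [Finite M] {K L : AddSubgroup M} (hKL : K ≤ L)
    (hK : ∀ g ∈ H, ∀ x ∈ K, a g x ∈ K) (hL : ∀ g ∈ H, ∀ x ∈ L, a g x ∈ L)
    (h : FinSh X (sAct a L) H) : FinSh X (sAct a K) H := by
  refine Pool.Agent.Helper99.FS.a1 X (AddSubgroup.inclusion hKL)
    (AddSubgroup.inclusion_injective hKL) (fun g hg n => ?_) h
  apply Subtype.ext
  rw [coe_sAct (hL g hg)]
  change ((sAct a K g n : K) : M) = _
  rw [coe_sAct (hK g hg)]
  rfl

theorem step {C : Subgroup G} {p : ℕ} [Fact p.Prime] (hA : ArithHyp X C p)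
    {H : Subgroup G} (hH : H ≤ C) (hV : ∃ V : Subgroup G, IsOpen (V : Set G) ∧ V ⊓ C ≤ H)
    {a : G → M →+ M} (ha : Act H a) [Finite M] (hp : ∃ k : ℕ, ∀ m : M, p ^ k • m = 0)
    (D : M →+ M) (hD : ∀ g ∈ H, ∀ m, D (a g m) = a g (D m)) {K L R : AddSubgroup M}
    (hK : ∀ g ∈ H, ∀ x ∈ K, a g x ∈ K) (hL : ∀ g ∈ H, ∀ x ∈ L, a g x ∈ L)
    (hR : ∀ g ∈ H, ∀ x ∈ R, a g x ∈ R) (hKL : ∀ x, x ∈ K ↔ x ∈ L ∧ D x = 0)
    (hLR : ∀ x ∈ L, D x ∈ R) (h1 : FinSh X (sAct a K) H) (h2 : FinSh X (sAct a R) H) :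
    FinSh X (sAct a L) H := by
  have hQ : ∀ g ∈ H, ∀ x ∈ L.map D, a g x ∈ L.map D := by
    rintro g hg _ ⟨x, hx, rfl⟩
    exact ⟨a g x, hL g hg x hx, hD g hg x⟩
  have hQR : L.map D ≤ R := by
    rintro _ ⟨x, hx, rfl⟩
    exact hLR x hx
  have h3 : FinSh X (sAct a (L.map D)) H := fin_of_le X hQR hQ hR h2
  have hle : K ≤ L := fun x hx => ((hKL x).1 hx).1
  let q : L →+ (L.map D : AddSubgroup M) :=
    (D.comp L.subtype).codRestrict (L.map D) (fun x => ⟨x, x.2, rfl⟩)
  have hqv : ∀ x : L, ((q x : (L.map D : AddSubgroup M)) : M) = D x := fun x => rfl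
  refine Pool.Agent.Helper21.FS.a3 X hA hH hV (act_sAct ha hK) (act_sAct ha hL) (act_sAct ha hQ)
    ?_ (AddSubgroup.inclusion hle) q (AddSubgroup.inclusion_injective hle) ?_ ?_ ?_ ?_ h1 h3
  · obtain ⟨k, hk⟩ := hp
    exact ⟨k, fun m => Subtype.ext (hk m)⟩
  · rintro ⟨_, x, hx, rfl⟩
    exact ⟨⟨x, hx⟩, rfl⟩
  · intro m
    constructor
    · intro hm
      have hm' : D m = 0 := by
        rw [← hqv, hm]
        rfl
      exact ⟨⟨m, (hKL m).2 ⟨m.2, hm'⟩⟩, rfl⟩
    · rintro ⟨n, rfl⟩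
      apply Subtype.ext
      rw [hqv]
      exact ((hKL n).1 n.2).2
  · intro g hg n
    apply Subtype.ext
    rw [coe_sAct (hL g hg)]
    change ((sAct a K g n : K) : M) = _
    rw [coe_sAct (hK g hg)]
    rfl
  · intro g hg m
    apply Subtype.ext
    rw [coe_sAct (hQ g hg), hqv, hqv, coe_sAct (hL g hg), hD g hg]

/-- C1. -/
theorem nil {C : Subgroup G} {p : ℕ} [Fact p.Prime] (hA : ArithHyp X C p)
    {H : Subgroup G} (hH : H ≤ C) (hV : ∃ V : Subgroup G, IsOpen (V : Set G) ∧ V ⊓ C ≤ H)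
    {a : G → M →+ M} (ha : Act H a) [Finite M] (hp : ∃ k : ℕ, ∀ m : M, p ^ k • m = 0)
    (D : M →+ M) (hD : ∀ g ∈ H, ∀ m, D (a g m) = a g (D m)) (n : ℕ) (hn : ∀ m, D^[n] m = 0)
    {aN : G → N →+ N} (i : N →+ M) (hi : Function.Injective i) (hr : ∀ m, D m = 0 ↔ ∃ x, i x = m)
    (he : ∀ g ∈ H, ∀ x, i (aN g x) = a g (i x)) (_hN : Act H aN) (h : FinSh X aN H) :
    FinSh X a H := by
  classical
  have hfN : Finite N := Finite.of_injective i hi
  -- the kernel of `D`
  have hR : ∀ g ∈ H, ∀ x ∈ i.range, a g x ∈ i.range := by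
    rintro g hg _ ⟨x, rfl⟩
    exact ⟨aN g x, he g hg x⟩
  have hR1 : FinSh X (sAct a i.range) H := by
    have hs : ∀ y : i.range, i ((AddMonoidHom.ofInjective hi).symm y) = y := fun y => by
      have := (AddMonoidHom.ofInjective hi).apply_symm_apply y
      exact congrArg Subtype.val this
    refine Pool.Agent.Helper99.FS.a1 X ((AddMonoidHom.ofInjective hi).symm : i.range →+ N)
      (AddMonoidHom.ofInjective hi).symm.injective (fun g hg y => ?_) h
    apply hi
    change i ((AddMonoidHom.ofInjective hi).symm (sAct a i.range g y)) =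
      i (aN g ((AddMonoidHom.ofInjective hi).symm y))
    rw [he g hg, hs, hs, coe_sAct (hR g hg)]
  -- powers of `D`
  let E : ℕ → M →+ M := fun k => Nat.rec (AddMonoidHom.id M) (fun _ f => D.comp f) k
  have hE0 : ∀ m, E 0 m = m := fun m => rfl
  have hE1 : ∀ k m, E (k + 1) m = D (E k m) := fun k m => rfl
  have hEg : ∀ k, ∀ g ∈ H, ∀ m, E k (a g m) = a g (E k m) := by
    intro k
    induction k with
    | zero => intro g _ m; rfl
    | succ k ih =>
      intro g hg m
      rw [hE1, hE1, ih g hg, hD g hg]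
  have hEn : ∀ k m, E k m = D^[k] m := by
    intro k
    induction k with
    | zero => intro m; rfl
    | succ k ih =>
      intro m
      rw [hE1, ih, Function.iterate_succ_apply']
  have hK : ∀ k, ∀ g ∈ H, ∀ x ∈ (E k).ker, a g x ∈ (E k).ker := by
    intro k g hg x hx
    rw [AddMonoidHom.mem_ker] at hx ⊢
    rw [hEg k g hg, hx, map_zero]
  have key : ∀ k, FinSh X (sAct a (E k).ker) H := by
    intro k
    induction k with
    | zero =>
      refine fin_of_le X ?_ (hK 0) hR hR1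
      intro x hx
      have hx0 : x = 0 := hx
      rw [hx0]
      exact AddSubgroup.zero_mem _
    | succ k ih =>
      refine step X hA hH hV ha hp (E k) (hEg k) (hK k) (hK (k + 1)) hR ?_ ?_ ih hR1
      · intro x
        constructor
        · intro hx
          have hx0 : E k x = 0 := hx
          refine ⟨?_, hx0⟩
          change E (k + 1) x = 0
          rw [hE1, hx0, map_zero]
        · exact fun hx => hx.2
      · intro x hx
        have hx0 : E (k + 1) x = 0 := hx
        rw [hE1] at hx0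
        exact (hr _).1 hx0
  have htop : ∀ m, m ∈ (E n).ker := by
    intro m
    rw [AddMonoidHom.mem_ker, hEn, hn]
  let j : M →+ (E n).ker := AddMonoidHom.codRestrict (AddMonoidHom.id M) (E n).ker htop
  refine Pool.Agent.Helper99.FS.a1 X j (fun x y hxy => congrArg Subtype.val hxy)
    (fun g hg m => ?_) (key n)
  apply Subtype.ext
  rw [coe_sAct (hK n g hg)]
  rfl

end nil

end Pool.Agent.Helper47.FS
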